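import Mathlib
import Pool.Agent.Q84.Beam2

/-!
# MP_0955de: two oblique observations of a periodic beam at rational non-integer speeds

The two-segment inverse inequality holds for all distinct non-integer rational speeds, all points
and all `T > 0`.
-/

set_option autoImplicit false

namespace Pool.Agent.Results.MP_0955de_an.RationalSpeeds

open Finset

/-- the solution of the beam equation with the finitely supported coefficients `cp = c^+`,
`cm = c^-`: `u(t,x) = c_0^+ + c_0^- t + ∑_{k ≠ 0} (c_k^+ e^{ik²t} + c_k^- e^{-ik²t}) e^{ikx}` -/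
noncomputable def u (cp cm : ℤ →₀ ℂ) (t x : ℝ) : ℂ :=
  cp 0 + cm 0 * (t : ℂ) + ∑ k ∈ (cp.support ∪ cm.support).erase 0,
    (cp k * Complex.exp (Complex.I * (k : ℂ) ^ 2 * t) +
      cm k * Complex.exp (-(Complex.I * (k : ℂ) ^ 2 * t))) * Complex.exp (Complex.I * k * x)

/-- `∑_k (|c_k^+|² + |c_k^-|²)` -/
noncomputable def energy (cp cm : ℤ →₀ ℂ) : ℝ :=
  ∑ k ∈ cp.support ∪ cm.support, (‖cp k‖ ^ 2 + ‖cm k‖ ^ 2)

/-- **Theorem.** For all distinct rational numbers `a₁, a₂` which are not integers, all points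
`(t₁, x₁), (t₂, x₂)` and all `T > 0` the two-segment inverse inequality holds. -/
theorem result (a₁ a₂ : ℚ) (h₁ : ¬ ∃ n : ℤ, a₁ = n) (h₂ : ¬ ∃ n : ℤ, a₂ = n) (hne : a₁ ≠ a₂)
    (t₁ x₁ t₂ x₂ T : ℝ) (hT : 0 < T) :
    ∃ C : ℝ, ∀ cp cm : ℤ →₀ ℂ, energy cp cm ≤
      C * ∫ s in (0 : ℝ)..T, (‖u cp cm (t₁ + s) (x₁ - a₁ * s)‖ ^ 2 +
        ‖u cp cm (t₂ + s) (x₂ - a₂ * s)‖ ^ 2) := by
  have hd : ∀ a : ℚ, (¬ ∃ n : ℤ, a = n) → a.den ≠ 1 := by
    intro a ha hden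
    exact ha ⟨a.num, (Rat.den_eq_one_iff a).mp hden |>.symm⟩
  exact Pool.Agent.Q84.Beam.two_segments a₁ a₂ (hd _ h₁) (hd _ h₂) hne t₁ x₁ t₂ x₂ T hT

end Pool.Agent.Results.MP_0955de_an.RationalSpeeds
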